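import Pool.Agent.H205R2.FZ.FZ_EXL

set_option autoImplicit false

open scoped ComplexConjugate

noncomputable section

namespace Pool.Agent.H923R2.FZ.T_EXC

open Pool.Agent.H923R2.FP Pool.Agent.H923R2.FZ
open Pool.Agent.H923R2.FZ.T_EXL

open Classical in
theorem inner_dl2 {X : Type} (x y : X) :
    inner ℂ (dl2 x) (dl2 y) = if x = y then (1 : ℂ) else 0 := by
  unfold dl2
  rw [lp.inner_single_left]
  by_cases h : x = y
  · subst h
    rw [lp.single_apply_self, if_pos rfl]
    simp
  · rw [lp.single_apply_ne _ _ _ h, if_neg h]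
    simp

theorem orthonormal_dl2 {X : Type} : Orthonormal ℂ (fun x : X => dl2 x) := by
  classical
  rw [orthonormal_iff_ite]
  intro i j
  rw [inner_dl2]

/-- isometry given by an injective map -/
theorem exists_isometry {X Y : Type} (e : X → Y) (he : Function.Injective e) :
    ∃ V : l2 X →ₗᵢ[ℂ] l2 Y, (∀ x, V (dl2 x) = dl2 (e x)) ∧
      ∀ (y : Y) (η : l2 X), (∀ x, e x ≠ y) → inner ℂ (dl2 y) (V η) = 0 := by
  classical
  have ho : Orthonormal ℂ (fun x => (dl2 (e x) : l2 Y)) := orthonormal_dl2.comp e he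
  refine ⟨ho.orthogonalFamily.linearIsometry, fun x => ?_, fun y η hy => ?_⟩
  · rw [← single_eq_dl2 x, OrthogonalFamily.linearIsometry_apply_single]
    simp
  · have h1 := ho.orthogonalFamily.hasSum_linearIsometry η
    have h2 := h1.mapL (innerSL ℂ (dl2 y : l2 Y))
    have h3 : (fun i => (innerSL ℂ (dl2 y : l2 Y)) ((LinearIsometry.toSpanSingleton ℂ (l2 Y)
        (ho.1 i)) (η i))) = fun _ => (0 : ℂ) := by
      funext i
      simp only [LinearIsometry.toSpanSingleton_apply, map_smul]
      rw [innerSL_apply_apply, inner_dl2, if_neg (fun h => hy i h.symm)]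
      simp
    rw [innerSL_apply_apply] at h2
    refine h2.unique ?_
    rw [h3]
    exact hasSum_zero

theorem ext_inner {X : Type} (ξ η : l2 X)
    (h : ∀ x, inner ℂ (dl2 x) ξ = inner ℂ (dl2 x) η) : ξ = η := by
  classical
  apply lp.ext
  funext x
  have h1 := h x
  unfold dl2 at h1
  rw [lp.inner_single_left, lp.inner_single_left] at h1
  simpa using h1

theorem t_EXC : S_EXC := by
  classical
  intro K D _ I lam Lam hcyc hLam
  let Om : l2 (Wd I) := dl2 (Wd.nil I)
  let A := StarAlgebra.adjoin ℂ (⋃ k, Set.range (Lam k))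
  let M : Submodule ℂ (l2 (Wd I)) :=
    (Subalgebra.toSubmodule A.toSubalgebra).map
      ((ContinuousLinearMap.apply ℂ (l2 (Wd I)) Om : (l2 (Wd I) →L[ℂ] l2 (Wd I)) →L[ℂ] l2 (Wd I)) :
        (l2 (Wd I) →L[ℂ] l2 (Wd I)) →ₗ[ℂ] l2 (Wd I))
  have hM : ∀ v, v ∈ M ↔ ∃ y ∈ A, y Om = v := by
    intro v
    exact Submodule.mem_map
  have hLA : ∀ k x, Lam k x ∈ A := fun k x =>
    StarAlgebra.subset_adjoin ℂ _ (Set.mem_iUnion.mpr ⟨k, x, rfl⟩)
  have hinv : ∀ k x v, v ∈ M.topologicalClosure → Lam k x v ∈ M.topologicalClosure := by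
    intro k x v hv
    rw [← SetLike.mem_coe, Submodule.topologicalClosure_coe] at hv ⊢
    refine map_mem_closure (Lam k x).continuous hv ?_
    intro u hu
    rw [SetLike.mem_coe, hM] at hu ⊢
    obtain ⟨y, hy, rfl⟩ := hu
    exact ⟨Lam k x * y, A.mul_mem (hLA k x) hy, rfl⟩
  have hnil : Om ∈ M.topologicalClosure := by
    refine M.le_topologicalClosure ?_
    rw [hM]
    exact ⟨1, A.one_mem, rfl⟩
  have hw : ∀ (l : List (Σ k, I k)) (h : l.IsChain fun a b => a.1 ≠ b.1),
      dl2 (⟨l, h⟩ : Wd I) ∈ M.topologicalClosure := by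
    intro l
    induction l with
    | nil =>
      intro h
      exact hnil
    | cons a l ih =>
      intro h
      obtain ⟨k, i⟩ := a
      have hw0 : Wd.hd k (⟨l, h.tail⟩ : Wd I) = none := by
        have h1 := hd_tl k (⟨⟨k, i⟩ :: l, h⟩ : Wd I)
        rwa [tl_pos k ⟨k, i⟩ l h rfl] at h1
      set w0 : Wd I := ⟨l, h.tail⟩ with hw0def
      have hih : dl2 w0 ∈ M.topologicalClosure := ih h.tail
      let e : Option (I k) → Wd I := fun o => (dec (I := I) k).symm (o, ⟨w0, hw0⟩)
      have he : Function.Injective e := by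
        intro o o' hoo
        have h1 := (dec (I := I) k).symm.injective hoo
        exact (Prod.mk.inj h1).1
      have hdec : ∀ o, dec k (e o) = (o, ⟨w0, hw0⟩) := fun o => Equiv.apply_symm_apply _ _
      have hehd : ∀ o, (e o).hd k = o := fun o => congrArg Prod.fst (hdec o)
      have hetl : ∀ o, (e o).tl k = w0 := fun o =>
        congrArg (fun p : Option (I k) × {w : Wd I // w.hd k = none} => p.2.1) (hdec o)
      obtain ⟨V, hV1, hV2⟩ := exists_isometry e he
      have hVL : ∀ x, V (lam k x (dl2 none)) = Lam k x (dl2 w0) := by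
        intro x
        apply ext_inner
        intro u
        rw [hLam, hw0, tl_eq_self k w0 hw0]
        by_cases hu : u.tl k = w0
        · rw [if_pos hu]
          have h2 : u = e (u.hd k) := ext_hd_tl k _ _ (hehd _).symm (hu.trans (hetl _).symm)
          conv_lhs => rw [h2]
          rw [← hV1, LinearIsometry.inner_map_map]
        · rw [if_neg hu]
          apply hV2
          intro o ho
          apply hu
          rw [← ho, hetl]
      let N : Submodule ℂ (l2 (Option (I k))) :=
        LinearMap.range (((ContinuousLinearMap.apply ℂ (l2 (Option (I k))) (dl2 none) :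
          (l2 (Option (I k)) →L[ℂ] l2 (Option (I k))) →L[ℂ] l2 (Option (I k))) :
          (l2 (Option (I k)) →L[ℂ] l2 (Option (I k))) →ₗ[ℂ] l2 (Option (I k))).comp
          (lam k).toAlgHom.toLinearMap)
      have hN : N.topologicalClosure = ⊤ := by
        rw [Submodule.topologicalClosure_eq_top_iff, Submodule.eq_bot_iff]
        intro ξ hξ
        apply hcyc k
        intro x
        rw [← inner_conj_symm]
        rw [Submodule.mem_orthogonal] at hξ
        have h7 : inner ℂ (lam k x (dl2 none)) ξ = 0 := hξ _ ⟨x, rfl⟩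
        rw [h7, map_zero]
      have h3 : (dl2 (some i) : l2 (Option (I k))) ∈ N.topologicalClosure := by
        rw [hN]
        trivial
      rw [← SetLike.mem_coe, Submodule.topologicalClosure_coe] at h3
      have h4 : V (dl2 (some i)) ∈ closure (M.topologicalClosure : Set (l2 (Wd I))) := by
        refine map_mem_closure V.continuous h3 ?_
        rintro _ ⟨x, rfl⟩
        have h5 := hinv k x _ hih
        rw [← hVL] at h5
        exact h5
      rw [M.isClosed_topologicalClosure.closure_eq, hV1] at h4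
      have h6 : e (some i) = (⟨⟨k, i⟩ :: l, h⟩ : Wd I) := by
        apply ext_hd_tl k
        · rw [hehd]
          exact (hd_pos k ⟨k, i⟩ l h rfl).symm
        · rw [hetl]
          exact (tl_pos k ⟨k, i⟩ l h rfl).symm
      rw [h6] at h4
      exact h4
  intro ξ ε hε
  have htop : ξ ∈ closure (M : Set (l2 (Wd I))) := by
    have h1 := lp.hasSum_single (E := fun _ : Wd I => ℂ) (p := 2) (by simp) ξ
    have h2 : ξ ∈ closure (M.topologicalClosure : Set (l2 (Wd I))) := by
      refine mem_closure_of_tendsto h1 (Filter.Eventually.of_forall fun s => ?_)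
      refine Submodule.sum_mem _ fun w _ => ?_
      have h3 : (lp.single 2 w (ξ w) : l2 (Wd I)) = (ξ w) • (lp.single 2 w (1 : ℂ) : l2 (Wd I)) := by
        rw [← lp.single_smul]
        simp
      rw [h3, single_eq_dl2]
      exact Submodule.smul_mem _ _ (hw w.1 w.2)
    rw [M.isClosed_topologicalClosure.closure_eq] at h2
    rwa [← Submodule.topologicalClosure_coe]
  rw [Metric.mem_closure_iff] at htop
  obtain ⟨v, hv, hd⟩ := htop ε hε
  rw [SetLike.mem_coe, hM] at hv
  obtain ⟨y, hy, rfl⟩ := hv
  rw [dist_eq_norm] at hd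
  exact ⟨y, hy, hd⟩

end Pool.Agent.H923R2.FZ.T_EXC
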