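import Pool.Agent.H923R2.FZ.Stubs3

set_option autoImplicit false

open scoped ComplexConjugate ComplexOrder

noncomputable section

namespace Pool.Agent.H923R2.FZ.T_EXG

open Pool.Agent.H923R2.FP Pool.Agent.H923R2.FZ

/-- the positive functional of a faithful tracial state -/
def posf (D : Type) [CStarAlgebra D] [PartialOrder D] [StarOrderedRing D] (t : D →ₗ[ℂ] ℂ)
    (h : FTS t) : D →ₚ[ℂ] ℂ :=
  PositiveLinearMap.mk₀ t (by
    intro x hx
    obtain ⟨y, rfl⟩ := CStarAlgebra.nonneg_iff_eq_star_mul_self.mp hx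
    have h1 : conj (t (star y * y)) = t (star y * y) := by
      rw [← h.str]
      congr 1
      rw [star_mul, star_star]
    have h2 := Complex.conj_eq_iff_im.mp h1
    rw [Complex.nonneg_iff]
    exact ⟨h.nonneg y, h2.symm⟩)

theorem single_eq_dl2 {X : Type} [inst : DecidableEq X] (x : X) :
    (lp.single 2 x (1 : ℂ) : l2 X) = dl2 x := by
  have h : inst = fun a b => Classical.propDecidable (a = b) := Subsingleton.elim _ _
  subst h
  rfl

theorem t_EXG : S_EXG := by
  classical
  intro D _ t ht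
  let _ : PartialOrder D := CStarAlgebra.spectralOrder D
  have _ : StarOrderedRing D := CStarAlgebra.spectralOrderedRing D
  let f : D →ₚ[ℂ] ℂ := posf D t ht
  have hf : ∀ x, f x = t x := fun _ => rfl
  let ζ : f.GNS := ((f.toPreGNS 1 : f.PreGNS) : f.GNS)
  have hpi : ∀ x, f.gnsStarAlgHom x ζ = ((f.toPreGNS x : f.PreGNS) : f.GNS) := by
    intro x
    show f.gnsNonUnitalStarAlgHom x ((f.toPreGNS 1 : f.PreGNS) : f.GNS) = _
    rw [PositiveLinearMap.gnsNonUnitalStarAlgHom_apply_coe,
      PositiveLinearMap.leftMulMapPreGNS_apply]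
    simp
  have hin : ∀ x y, inner ℂ ((f.toPreGNS x : f.PreGNS) : f.GNS) ((f.toPreGNS y : f.PreGNS) : f.GNS)
      = t (star x * y) := by
    intro x y
    rw [UniformSpace.Completion.inner_coe, PositiveLinearMap.preGNS_inner_def]
    rfl
  have hnorm : ‖ζ‖ = 1 := by
    have h1 : inner ℂ ζ ζ = (1 : ℂ) := by
      rw [hin]
      simp [ht.one]
    rw [inner_self_eq_norm_sq_to_K] at h1
    have h2 : ((‖ζ‖ ^ 2 : ℝ) : ℂ) = 1 := by
      rw [← h1]
      push_cast
      rfl
    have h3 : ‖ζ‖ ^ 2 = 1 := by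
      have h4 := congrArg Complex.re h2
      rwa [Complex.ofReal_re, Complex.one_re] at h4
    nlinarith [norm_nonneg ζ]
  have hon : Orthonormal ℂ ((↑) : ({ζ} : Set f.GNS) → f.GNS) := by
    refine ⟨?_, ?_⟩
    · rintro ⟨x, hx⟩
      rw [Set.mem_singleton_iff] at hx
      subst hx
      exact hnorm
    · rintro ⟨x, hx⟩ ⟨y, hy⟩ hxy
      exfalso
      apply hxy
      rw [Set.mem_singleton_iff] at hx hy
      subst hx
      exact Subtype.ext hy.symm
  obtain ⟨s, b, hs, hb⟩ := hon.exists_hilbertBasis_extension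
  have hζs : ζ ∈ s := hs rfl
  let z0 : s := ⟨ζ, hζs⟩
  let I : Type := {x : s // x ≠ z0}
  let eq : Option I ≃ s := Equiv.optionSubtypeNe z0
  let v : Option I → f.GNS := fun o => b (eq o)
  have hvo : Orthonormal ℂ v := b.orthonormal.comp eq eq.injective
  have hrange : Set.range v = Set.range b := eq.surjective.range_comp b
  let b' : HilbertBasis (Option I) ℂ f.GNS := HilbertBasis.mk hvo (by
    rw [hrange]
    exact b.dense_span.ge)
  have hb' : ∀ o, b' o = v o := fun o => congrFun (HilbertBasis.coe_mk hvo _) o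
  have hnone : b' none = ζ := by
    rw [hb']
    show b (eq none) = ζ
    have : eq none = z0 := Equiv.optionSubtypeNe_none z0
    rw [this, hb]
  let U : f.GNS ≃ₗᵢ[ℂ] l2 (Option I) := b'.repr
  have hU : U ζ = dl2 none := by
    show b'.repr ζ = _
    rw [← hnone]
    have := b'.repr_self none
    rw [this]
    exact single_eq_dl2 _
  have hUs : U.symm (dl2 none) = ζ := by
    rw [← hU, LinearIsometryEquiv.symm_apply_apply]
  refine ⟨I, (U.conjStarAlgEquiv : (f.GNS →L[ℂ] f.GNS) →⋆ₐ[ℂ] _).comp f.gnsStarAlgHom, ?_, ?_⟩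
  · intro x
    show inner ℂ (dl2 none) (U.conjStarAlgEquiv (f.gnsStarAlgHom x) (dl2 none)) = _
    rw [LinearIsometryEquiv.conjStarAlgEquiv_apply_apply, hUs, ← hU,
      LinearIsometryEquiv.inner_map_map, hpi, hin]
    simp
  · intro ξ h
    have h1 : ∀ x, inner ℂ (U.symm ξ) ((f.toPreGNS x : f.PreGNS) : f.GNS) = 0 := by
      intro x
      have h2 := h x
      change inner ℂ ξ (U.conjStarAlgEquiv (f.gnsStarAlgHom x) (dl2 none)) = 0 at h2
      rw [LinearIsometryEquiv.conjStarAlgEquiv_apply_apply, hUs, hpi] at h2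
      rw [← LinearIsometryEquiv.inner_map_map U, LinearIsometryEquiv.apply_symm_apply]
      exact h2
    have h3 : ∀ y : f.GNS, inner ℂ (U.symm ξ) y = 0 := by
      intro y
      induction y using UniformSpace.Completion.induction_on with
      | hp => exact isClosed_eq (by fun_prop) (by fun_prop)
      | ih a => exact h1 (f.ofPreGNS a)
    have h4 : U.symm ξ = 0 := inner_self_eq_zero.mp (h3 _)
    have h5 := congrArg U h4
    rwa [LinearIsometryEquiv.apply_symm_apply, map_zero] at h5

end Pool.Agent.H923R2.FZ.T_EXG
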