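import Pool.Agent.H923R2.FZ.Stubs3

set_option autoImplicit false

open scoped ComplexConjugate

noncomputable section

namespace Pool.Agent.H923R2.FZ.T_EXL

open Pool.Agent.H923R2.FP Pool.Agent.H923R2.FZ

section words

variable {K : Type} {I : K → Type}

open Classical in
theorem tl_pos (k : K) (a : Σ k, I k) (l : List (Σ k, I k))
    (h : (a :: l).IsChain fun a b => a.1 ≠ b.1) (ha : a.1 = k) :
    Wd.tl k (⟨a :: l, h⟩ : Wd I) = ⟨l, h.tail⟩ := if_pos ha

open Classical in
theorem tl_neg (k : K) (a : Σ k, I k) (l : List (Σ k, I k))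
    (h : (a :: l).IsChain fun a b => a.1 ≠ b.1) (ha : a.1 ≠ k) :
    Wd.tl k (⟨a :: l, h⟩ : Wd I) = ⟨a :: l, h⟩ := if_neg ha

open Classical in
theorem hd_pos (k : K) (a : Σ k, I k) (l : List (Σ k, I k))
    (h : (a :: l).IsChain fun a b => a.1 ≠ b.1) (ha : a.1 = k) :
    Wd.hd k (⟨a :: l, h⟩ : Wd I) = some (ha ▸ a.2) := dif_pos ha

open Classical in
theorem hd_neg (k : K) (a : Σ k, I k) (l : List (Σ k, I k))
    (h : (a :: l).IsChain fun a b => a.1 ≠ b.1) (ha : a.1 ≠ k) :
    Wd.hd k (⟨a :: l, h⟩ : Wd I) = none := dif_neg ha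

theorem hd_nil (k : K) (h : ([] : List (Σ k, I k)).IsChain fun a b => a.1 ≠ b.1) :
    Wd.hd k (⟨[], h⟩ : Wd I) = none := rfl

theorem tl_nil (k : K) (h : ([] : List (Σ k, I k)).IsChain fun a b => a.1 ≠ b.1) :
    Wd.tl k (⟨[], h⟩ : Wd I) = ⟨[], h⟩ := rfl

theorem hd_tl (k : K) (w : Wd I) : (w.tl k).hd k = none := by
  rcases w with ⟨l, hl⟩
  cases l with
  | nil => rw [tl_nil, hd_nil]
  | cons a l =>
    by_cases h : a.1 = k
    · rw [tl_pos k a l hl h]
      cases l with
      | nil => rfl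
      | cons b l =>
        have h1 : a.1 ≠ b.1 := by
          rw [List.isChain_cons_cons] at hl
          exact hl.1
        exact hd_neg k b l _ (fun h2 => h1 (h.trans h2.symm))
    · rw [tl_neg k a l hl h, hd_neg k a l hl h]

theorem tl_eq_self (k : K) (w : Wd I) (h : w.hd k = none) : w.tl k = w := by
  rcases w with ⟨l, hl⟩
  cases l with
  | nil => rfl
  | cons a l =>
    by_cases h1 : a.1 = k
    · rw [hd_pos k a l hl h1] at h
      exact absurd h (by simp)
    · rw [tl_neg k a l hl h1]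

/-- add a letter -/
def add (k : K) (i : I k) (w : Wd I) (hw : w.hd k = none) : Wd I :=
  ⟨⟨k, i⟩ :: w.1, by
    rcases w with ⟨l, hl⟩
    cases l with
    | nil => exact List.isChain_singleton _
    | cons a l =>
      rw [List.isChain_cons_cons]
      refine ⟨?_, hl⟩
      intro h1
      simp only at h1
      rw [hd_pos k a l hl h1.symm] at hw
      exact absurd hw (by simp)⟩

theorem hd_add (k : K) (i : I k) (w : Wd I) (hw : w.hd k = none) :
    (add k i w hw).hd k = some i := hd_pos k ⟨k, i⟩ w.1 _ rfl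

theorem tl_add (k : K) (i : I k) (w : Wd I) (hw : w.hd k = none) :
    (add k i w hw).tl k = w := tl_pos k ⟨k, i⟩ w.1 _ rfl

theorem val_eq (k : K) (i : I k) (u : Wd I) (hu : u.hd k = some i) :
    u.1 = ⟨k, i⟩ :: (u.tl k).1 := by
  rcases u with ⟨l, hl⟩
  cases l with
  | nil =>
    rw [hd_nil] at hu
    exact absurd hu (by simp)
  | cons a l =>
    by_cases h4 : a.1 = k
    · obtain ⟨a1, a2⟩ := a
      simp only at h4
      subst h4
      rw [hd_pos a1 ⟨a1, a2⟩ l hl rfl] at hu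
      rw [tl_pos a1 ⟨a1, a2⟩ l hl rfl]
      have h5 : a2 = i := Option.some.inj hu
      subst h5
      rfl
    · rw [hd_neg k a l hl h4] at hu
      exact absurd hu (by simp)

theorem ext_hd_tl (k : K) (w w' : Wd I) (h1 : w.hd k = w'.hd k) (h2 : w.tl k = w'.tl k) :
    w = w' := by
  cases h3 : w.hd k with
  | none =>
    rw [← tl_eq_self k w h3, ← tl_eq_self k w' (h1 ▸ h3), h2]
  | some i =>
    apply Subtype.ext
    rw [val_eq k i w h3, val_eq k i w' (h1 ▸ h3), h2]

/-- decomposition of the words -/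
def dec (k : K) : Wd I ≃ Option (I k) × {w : Wd I // w.hd k = none} :=
  Equiv.ofBijective (fun w => (w.hd k, ⟨w.tl k, hd_tl k w⟩)) (by
    constructor
    · intro w w' h
      rw [Prod.mk.injEq, Subtype.mk.injEq] at h
      exact ext_hd_tl k w w' h.1 h.2
    · rintro ⟨o, ⟨w, hw⟩⟩
      cases o with
      | none =>
        refine ⟨w, ?_⟩
        rw [Prod.mk.injEq, Subtype.mk.injEq]
        exact ⟨hw, tl_eq_self k w hw⟩
      | some i =>
        refine ⟨add k i w hw, ?_⟩
        rw [Prod.mk.injEq, Subtype.mk.injEq]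
        exact ⟨hd_add k i w hw, tl_add k i w hw⟩)

end words

theorem single_eq_dl2 {X : Type} [inst : DecidableEq X] (x : X) :
    (lp.single 2 x (1 : ℂ) : l2 X) = dl2 x := by
  have h : inst = fun a b => Classical.propDecidable (a = b) := Subsingleton.elim _ _
  subst h
  rfl

theorem exists_unitary {X Y : Type} (e : X ≃ Y) :
    ∃ V : l2 X ≃ₗᵢ[ℂ] l2 Y, ∀ x, V (dl2 x) = dl2 (e x) := by
  classical
  let b0 : HilbertBasis Y ℂ (l2 Y) := HilbertBasis.ofRepr (LinearIsometryEquiv.refl ℂ _)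
  have hb0 : ∀ y, b0 y = dl2 y := by
    intro y
    have h := b0.repr_self y
    rw [single_eq_dl2] at h
    exact h
  have ho : Orthonormal ℂ (fun x => b0 (e x)) := b0.orthonormal.comp e e.injective
  have hr : Set.range (fun x => b0 (e x)) = Set.range b0 := e.surjective.range_comp b0
  let b1 : HilbertBasis X ℂ (l2 Y) := HilbertBasis.mk ho (by
    rw [hr]
    exact b0.dense_span.ge)
  have hb1 : ∀ x, b1 x = dl2 (e x) := by
    intro x
    have h1 : b1 x = b0 (e x) := congrFun (HilbertBasis.coe_mk ho _) x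
    rw [h1, hb0]
  refine ⟨b1.repr.symm, fun x => ?_⟩
  have h2 := b1.repr_symm_single x
  rw [single_eq_dl2] at h2
  rw [h2, hb1]

theorem t_EXL (hAMP : S_AMP) : S_EXL := by
  classical
  intro K D _ I lam
  have key : ∀ k : K, ∃ L : D k →⋆ₐ[ℂ] (l2 (Wd I) →L[ℂ] l2 (Wd I)), ∀ (x : D k) (w w' : Wd I),
      inner ℂ (dl2 w) (L x (dl2 w')) =
        if w.tl k = w'.tl k then inner ℂ (dl2 (w.hd k)) (lam k x (dl2 (w'.hd k))) else 0 := by
    intro k
    obtain ⟨Θ, hΘ⟩ := hAMP (Option (I k)) {w : Wd I // w.hd k = none}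
    obtain ⟨V, hV⟩ := exists_unitary (dec (I := I) k)
    refine ⟨(V.symm.conjStarAlgEquiv : (l2 (Option (I k) × {w : Wd I // w.hd k = none}) →L[ℂ] _)
      →⋆ₐ[ℂ] _).comp (Θ.comp (lam k)), ?_⟩
    intro x w w'
    show inner ℂ (dl2 w) (V.symm.conjStarAlgEquiv (Θ (lam k x)) (dl2 w')) = _
    rw [LinearIsometryEquiv.conjStarAlgEquiv_apply_apply, LinearIsometryEquiv.symm_symm,
      ← LinearIsometryEquiv.inner_map_map V, LinearIsometryEquiv.apply_symm_apply, hV, hV]
    have h1 : ∀ u : Wd I, dec k u = (u.hd k, ⟨u.tl k, hd_tl k u⟩) := fun _ => rfl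
    rw [h1, h1, hΘ]
    simp only [Subtype.mk.injEq]
  choose L hL using key
  exact ⟨L, hL⟩

end Pool.Agent.H923R2.FZ.T_EXL
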